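import Pool.Agent.V1146.Umb.XLem

namespace Pool.Agent.V1146.Umb

open Set Filter Topology

variable {X : Type*} [NormedAddCommGroup X] [NormedSpace ℝ X]

/-- limits of bounded real sequences along an ultrafilter -/
theorem ulim (U : Ultrafilter ℕ) (f : ℕ → ℝ) (M : ℝ) (h : ∀ n, |f n| ≤ M) :
    ∃ l, Tendsto f U (𝓝 l) ∧ |l| ≤ M := by
  have hc : IsCompact (Icc (-M) M) := isCompact_Icc
  have hU : ((U.map f : Ultrafilter ℝ) : Filter ℝ) ≤ 𝓟 (Icc (-M) M) := by
    rw [le_principal_iff, Ultrafilter.mem_coe, Ultrafilter.mem_map]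
    exact Filter.univ_mem' (fun n => abs_le.1 (h n))
  obtain ⟨l, hl, hle⟩ := hc.ultrafilter_le_nhds _ hU
  exact ⟨l, hle, abs_le.2 hl⟩

/-- **Separation.** Along a nonprincipal ultrafilter the Heisenberg distance of the tips is
bounded by the horizontal distance `D`; and a subsequence is horizontally separated by `D / 2`. -/
theorem separation (ω : X →L[ℝ] X →L[ℝ] ℝ) (hω : ∀ x y, ω x y = - ω y x)
    {Λ : ℝ} (hΛ : 0 < Λ) (hΛω : Λ * ‖ω‖ ≤ 1) (b : ℕ → X) (t : ℕ → ℝ) {B S : ℝ}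
    (hb : ∀ n, ‖b n‖ ≤ B) (ht : ∀ n, Λ * |t n| ≤ B ^ 2) (hS : 0 < S)
    (hSep : ∀ i, ∀ᶠ j in atTop,
      S ≤ max ‖b j - b i‖ (Real.sqrt (Λ * |t j - t i - ω (b i) (b j)|))) :
    ∃ D, S ≤ D ∧ ∃ φ : ℕ → ℕ, ∀ m n, m ≠ n → D / 2 ≤ ‖b (φ m) - b (φ n)‖ := by
  have hB : 0 ≤ B := (norm_nonneg _).trans (hb 0)
  set U : Ultrafilter ℕ := hyperfilter ℕ with hU
  have hUle : (U : Filter ℕ) ≤ atTop := Nat.hyperfilter_le_atTop
  -- the limits
  have hωb : ∀ x y, |ω x y| ≤ ‖ω‖ * ‖x‖ * ‖y‖ := fun x y => by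
    rw [← Real.norm_eq_abs]; exact ω.le_opNorm₂ x y
  have h1 : ∀ i, ∃ l, Tendsto (fun j => ‖b i - b j‖) U (𝓝 l) ∧ |l| ≤ 2 * B := by
    intro i
    apply ulim
    intro n
    rw [abs_of_nonneg (norm_nonneg _)]
    have := norm_sub_le (b i) (b n)
    linarith [hb i, hb n]
  choose Di hDi hDiB using h1
  obtain ⟨D, hD, -⟩ := ulim U Di (2 * B) hDiB
  have h2 : ∀ i, ∃ l, Tendsto (fun j => ω (b i) (b j)) U (𝓝 l) ∧ |l| ≤ ‖ω‖ * B * B := by
    intro i
    apply ulim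
    intro n
    refine (hωb _ _).trans ?_
    gcongr
    · exact hb i
    · exact hb n
  choose Li hLi hLiB using h2
  obtain ⟨L, hL, -⟩ := ulim U Li _ hLiB
  obtain ⟨T, hT, -⟩ := ulim U t (B ^ 2 / Λ) (fun n => by
    rw [le_div_iff₀ hΛ, mul_comm]; exact ht n)
  -- the bound for `L`
  have k1 : ∀ i j k, |ω (b i) (b j) - Li i - ω (b k) (b j) + Li k|
      ≤ ‖ω‖ * ‖b i - b k‖ * Di j := by
    intro i j k
    have ha : Tendsto (fun m => |ω (b i) (b j) - ω (b i) (b m) - ω (b k) (b j)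
        + ω (b k) (b m)|) U (𝓝 |ω (b i) (b j) - Li i - ω (b k) (b j) + Li k|) :=
      (((tendsto_const_nhds.sub (hLi i)).sub tendsto_const_nhds).add (hLi k)).abs
    have hb' : Tendsto (fun m => ‖ω‖ * ‖b i - b k‖ * ‖b j - b m‖) U
        (𝓝 (‖ω‖ * ‖b i - b k‖ * Di j)) := tendsto_const_nhds.mul (hDi j)
    refine le_of_tendsto_of_tendsto' ha hb' (fun m => ?_)
    have e : ω (b i) (b j) - ω (b i) (b m) - ω (b k) (b j) + ω (b k) (b m)
        = ω (b i - b k) (b j - b m) := by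
      simp only [map_sub, sub_apply]
      ring
    rw [e]
    exact hωb _ _
  have k2 : ∀ i j, |ω (b i) (b j) - Li i + Li j + L| ≤ ‖ω‖ * Di i * Di j := by
    intro i j
    have hkj : Tendsto (fun k => ω (b k) (b j)) U (𝓝 (- Li j)) := by
      have := (hLi j).neg
      refine this.congr (fun k => ?_)
      rw [hω (b k) (b j)]
    have ha : Tendsto (fun k => |ω (b i) (b j) - Li i - ω (b k) (b j) + Li k|) U
        (𝓝 |ω (b i) (b j) - Li i - (- Li j) + L|) :=
      ((tendsto_const_nhds.sub hkj).add hL).abs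
    have hb' : Tendsto (fun k => ‖ω‖ * ‖b i - b k‖ * Di j) U (𝓝 (‖ω‖ * Di i * Di j)) :=
      (tendsto_const_nhds.mul (hDi i)).mul tendsto_const_nhds
    have := le_of_tendsto_of_tendsto' ha hb' (fun k => k1 i j k)
    rwa [sub_neg_eq_add] at this
  have k3 : ∀ i, |Li i - Li i + L + L| ≤ ‖ω‖ * Di i * D := by
    intro i
    have ha : Tendsto (fun j => |ω (b i) (b j) - Li i + Li j + L|) U
        (𝓝 |Li i - Li i + L + L|) :=
      (((hLi i).sub tendsto_const_nhds).add hL |>.add tendsto_const_nhds).abs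
    have hb' : Tendsto (fun j => ‖ω‖ * Di i * Di j) U (𝓝 (‖ω‖ * Di i * D)) :=
      tendsto_const_nhds.mul hD
    exact le_of_tendsto_of_tendsto' ha hb' (fun j => k2 i j)
  have k4 : |2 * L| ≤ ‖ω‖ * D * D := by
    have hb' : Tendsto (fun i => ‖ω‖ * Di i * D) U (𝓝 (‖ω‖ * D * D)) :=
      (tendsto_const_nhds.mul hD).mul tendsto_const_nhds
    refine ge_of_tendsto' hb' (fun i => ?_)
    have := k3 i
    rwa [sub_self, zero_add, ← two_mul] at this
  -- the bound for `S`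
  have s1 : ∀ i, S ≤ max (Di i) (Real.sqrt (Λ * |T - t i - Li i|)) := by
    intro i
    have ha : Tendsto (fun j => max ‖b j - b i‖ (Real.sqrt (Λ * |t j - t i - ω (b i) (b j)|)))
        U (𝓝 (max (Di i) (Real.sqrt (Λ * |T - t i - Li i|)))) := by
      apply Tendsto.max
      · refine (hDi i).congr (fun j => norm_sub_rev _ _)
      · exact (tendsto_const_nhds.mul
          (((hT.sub tendsto_const_nhds).sub (hLi i)).abs)).sqrt
    exact ge_of_tendsto ha ((hSep i).filter_mono hUle)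
  have s2 : S ≤ max D (Real.sqrt (Λ * |T - T - L|)) := by
    have ha : Tendsto (fun i => max (Di i) (Real.sqrt (Λ * |T - t i - Li i|)))
        U (𝓝 (max D (Real.sqrt (Λ * |T - T - L|)))) := by
      apply Tendsto.max hD
      exact (tendsto_const_nhds.mul
          (((tendsto_const_nhds.sub hT).sub hL).abs)).sqrt
    exact ge_of_tendsto' ha s1
  have hD0 : 0 ≤ D := by
    have : ∀ i, 0 ≤ Di i := fun i => ge_of_tendsto' (hDi i) (fun j => norm_nonneg _)
    exact ge_of_tendsto' hD this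
  have s3 : Real.sqrt (Λ * |T - T - L|) ≤ D := by
    rw [sub_self, zero_sub, abs_neg]
    apply Real.sqrt_le_iff.2 ⟨hD0, ?_⟩
    have h3 : |L| ≤ ‖ω‖ * D * D := by
      have : |2 * L| = 2 * |L| := by rw [abs_mul]; norm_num
      rw [this] at k4
      have := abs_nonneg L
      linarith
    calc Λ * |L| ≤ Λ * (‖ω‖ * D * D) := by gcongr
      _ = (Λ * ‖ω‖) * (D * D) := by ring
      _ ≤ 1 * (D * D) := by gcongr
      _ = D ^ 2 := by ring
  have hSD : S ≤ D := s2.trans (max_le le_rfl s3)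
  refine ⟨D, hSD, ?_⟩
  have hDpos : 0 < D := hS.trans_le hSD
  -- the subsequence
  have hA : ∀ᶠ i in (U : Filter ℕ), D / 2 < Di i := hD.eventually (lt_mem_nhds (by linarith))
  have hAi : ∀ i, D / 2 < Di i → ∀ᶠ j in (U : Filter ℕ), D / 2 < ‖b i - b j‖ :=
    fun i hi => (hDi i).eventually (lt_mem_nhds hi)
  have : Std.Symm (fun i j => D / 2 ≤ ‖b i - b j‖) :=
    ⟨fun i j h => by rw [norm_sub_rev]; exact h⟩
  obtain ⟨φ, hφ1, hφ2⟩ := exists_seq_of_forall_finset_exists' (fun i => D / 2 < Di i)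
    (fun i j => D / 2 ≤ ‖b i - b j‖) (by
      intro s hs
      have : ∀ᶠ j in (U : Filter ℕ), D / 2 < Di j ∧ ∀ i ∈ s, D / 2 < ‖b i - b j‖ := by
        refine hA.and ?_
        rw [Filter.eventually_all_finset]
        intro i hi
        exact hAi i (hs i hi)
      obtain ⟨j, hj1, hj2⟩ := this.exists
      exact ⟨j, hj1, fun x hx => (hj2 x hx).le⟩)
  refine ⟨φ, fun m n hmn => ?_⟩
  exact hφ2 hmn

/-- **Core inequality** for the quasi-metric `max ‖x‖ √(Λ |s|)`. -/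
theorem core {p c : ℝ} (hp : 1 < p) (hc : 0 < c) (hX : BetaIneq p c X)
    (ω : X →L[ℝ] X →L[ℝ] ℝ) (hω : ∀ x y, ω x y = - ω y x)
    {Λ : ℝ} (hΛ : 0 < Λ) (hΛω : Λ * ‖ω‖ ≤ 1) :
    ∃ K : ℝ, 0 < K ∧ ∀ (a : X) (s : ℝ) (b : ℕ → X) (t : ℕ → ℝ) (α B I S : ℝ),
      ‖a‖ ≤ α → Λ * |s| ≤ α ^ 2 → (∀ n, ‖b n‖ ≤ B) → (∀ n, Λ * |t n| ≤ B ^ 2) →
      0 ≤ I → 0 ≤ S →
      (∀ n, I ≤ max ‖a + b n‖ (Real.sqrt (Λ * |s + t n + ω a (b n)|))) →
      (∀ i, ∀ᶠ j in atTop,
        S ≤ max ‖b j - b i‖ (Real.sqrt (Λ * |t j - t i - ω (b i) (b j)|))) →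
      I ^ p / 2 ^ p + S ^ p / K ^ p ≤ α ^ p / 2 + B ^ p / 2 := by
  have hp0 : 0 < p := by linarith
  obtain ⟨c', hc', hx⟩ := x_umbel hp hc hX
  obtain ⟨κ, hκ, hgap⟩ := gap_two hp
  set μ := min c' κ with hμ
  have hμ0 : 0 < μ := lt_min hc' hκ
  refine ⟨(4 : ℝ) * (1 / μ) ^ (1 / p), by positivity, ?_⟩
  intro a s b t α B I S ha hs hb ht hI0 hS0 hI hSep
  have hB : 0 ≤ B := (norm_nonneg _).trans (hb 0)
  have hα : 0 ≤ α := (norm_nonneg _).trans ha
  have hK : ((4 : ℝ) * (1 / μ) ^ (1 / p)) ^ p = 4 ^ p / μ := by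
    rw [Real.mul_rpow (by norm_num) (by positivity), ← Real.rpow_mul (by positivity),
      one_div_mul_cancel hp0.ne', Real.rpow_one]
    ring
  rw [hK]
  set V := Real.sqrt (α ^ 2 + α * B + B ^ 2) with hV
  have hVn : ∀ n, Real.sqrt (Λ * |s + t n + ω a (b n)|) ≤ V := by
    intro n
    apply Real.sqrt_le_sqrt
    have h1 : |ω a (b n)| ≤ ‖ω‖ * α * B := by
      rw [← Real.norm_eq_abs]
      refine (ω.le_opNorm₂ a (b n)).trans ?_
      gcongr
      exact hb n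
    have h2 : |s + t n + ω a (b n)| ≤ |s| + |t n| + |ω a (b n)| := abs_add_three _ _ _
    calc Λ * |s + t n + ω a (b n)| ≤ Λ * (|s| + |t n| + ‖ω‖ * α * B) := by
          gcongr
          linarith
      _ = Λ * |s| + Λ * |t n| + (Λ * ‖ω‖) * (α * B) := by ring
      _ ≤ α ^ 2 + B ^ 2 + 1 * (α * B) := by
          have := ht n
          have : (Λ * ‖ω‖) * (α * B) ≤ 1 * (α * B) := by gcongr
          linarith
      _ = _ := by ring
  have hV2 := hgap α B hα hB
  have hIp : I ^ p / 2 ^ p = (I / 2) ^ p := by rw [Real.div_rpow hI0 (by norm_num)]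
  rw [hIp]
  have hVαB : V ≤ α + B := by
    rw [hV]
    apply Real.sqrt_le_iff.2 ⟨by linarith, ?_⟩
    nlinarith [mul_nonneg hα hB]
  rcases eq_or_lt_of_le hS0 with hS | hS
  · rw [← hS, Real.zero_rpow hp0.ne', zero_div, add_zero]
    refine le_trans ?_ (mid_le hp hα hB)
    apply Real.rpow_le_rpow (by linarith) _ hp0.le
    have h1 := (hI 0).trans (max_le_max (norm_add_le a (b 0)) (hVn 0))
    have h2 : max (‖a‖ + ‖b 0‖) V ≤ α + B := max_le (by linarith [hb 0]) hVαB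
    linarith
  · obtain ⟨D, hSD, φ, hφ⟩ := separation ω hω hΛ hΛω b t hb ht hS hSep
    have hD : 0 < D := hS.trans_le hSD
    have hD2B : D / 2 ≤ 2 * B := by
      have h1 := hφ 0 1 (by norm_num)
      have h2 := norm_sub_le (b (φ 0)) (b (φ 1))
      linarith [hb (φ 0), hb (φ 1)]
    have hSp : S ^ p / (4 ^ p / μ) ≤ μ * (D / 2) ^ p := by
      have h1 : S ^ p ≤ D ^ p := Real.rpow_le_rpow hS.le hSD hp0.le
      have h2 : (D / 2) ^ p = D ^ p / 2 ^ p := Real.div_rpow hD.le (by norm_num) p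
      rw [h2, div_div_eq_mul_div, mul_comm, ← mul_div_assoc]
      have h3 : (2:ℝ) ^ p ≤ 4 ^ p := Real.rpow_le_rpow (by norm_num) (by norm_num) hp0.le
      gcongr
    rcases le_or_gt I V with hIV | hIV
    · have h1 : (I / 2) ^ p ≤ (V / 2) ^ p :=
        Real.rpow_le_rpow (by linarith) (by linarith) hp0.le
      have h2 : μ * (D / 2 / 2) ^ p ≤ κ * (α + B) ^ p := by
        apply mul_le_mul (min_le_right _ _) _ (by positivity) hκ.le
        apply Real.rpow_le_rpow (by linarith) _ hp0.le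
        linarith
      have h3 : S ^ p / (4 ^ p / μ) ≤ μ * (D / 2 / 2) ^ p := by
        have h1 : S ^ p ≤ D ^ p := Real.rpow_le_rpow hS.le hSD hp0.le
        have h2 : (D / 2 / 2) ^ p = D ^ p / 4 ^ p := by
          rw [div_div, Real.div_rpow hD.le (by norm_num) p]
          norm_num
        rw [h2, div_div_eq_mul_div, mul_comm, ← mul_div_assoc]
        gcongr
      linarith
    · have hJ : ∀ n, I ≤ ‖a + b (φ n)‖ := by
        intro n
        rcases le_max_iff.1 (hI (φ n)) with h | h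
        · exact h
        · exact absurd (h.trans (hVn _)) (not_le.2 hIV)
      have h1 := hx a (fun n => b (φ n)) B (D / 2) I (by linarith) (fun n => hb _) hφ hI0 hJ
      have h2 : μ * (D / 2) ^ p ≤ c' * (D / 2) ^ p := by
        gcongr
        exact min_le_left _ _
      have h3 : ‖a‖ ^ p ≤ α ^ p := Real.rpow_le_rpow (norm_nonneg a) ha hp0.le
      linarith

end Pool.Agent.V1146.Umb
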