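import Pool.Agent.V1146.Umb.Defs

namespace Pool.Agent.V1146.Umb

open Set Filter Topology MeasureTheory
open scoped ENNReal NNReal

variable {X : Type*} [NormedAddCommGroup X] [NormedSpace ℝ X]

/-- local estimate -/
theorem local_est {ω : X →L[ℝ] X →L[ℝ] ℝ} {γ : ℝ → X} {z : ℝ → ℝ} (h : IsHorizontal ω γ z)
    {K : ℝ≥0} (hK : LipschitzOnWith K γ (Icc 0 1)) {u v : ℝ} (hu : 0 ≤ u) (huv : u ≤ v)
    (hv : v ≤ 1) :
    |z v - z u - ω (γ u) (γ v - γ u)| ≤ ‖ω‖ * K ^ 2 * (v - u) ^ 2 := by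
  have hsub : Icc u v ⊆ Icc 0 1 := Icc_subset_Icc hu hv
  obtain ⟨K2, hK2⟩ := h.lip_height
  set Φ : ℝ → ℝ := fun r => z r - ω (γ u) (γ r) with hΦ
  have hL : LipschitzOnWith (K2 + ‖ω (γ u)‖₊ * K) Φ (uIcc u v) := by
    rw [uIcc_of_le huv]
    have h1 : LipschitzOnWith (‖ω (γ u)‖₊ * K) (fun r => ω (γ u) (γ r)) (Icc u v) :=
      (ω (γ u)).lipschitz.comp_lipschitzOnWith (hK.mono hsub)
    exact (hK2.mono hsub).sub h1
  have hFTC := hL.absolutelyContinuousOnInterval.integral_deriv_eq_sub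
  have hval : z v - z u - ω (γ u) (γ v - γ u) = ∫ x in u..v, deriv Φ x := by
    rw [hFTC, hΦ]
    simp only [map_sub]
    ring
  rw [hval, ← Real.norm_eq_abs]
  have hne : ∀ᵐ x : ℝ, x ≠ u ∧ x ≠ v := by
    have h1 : ∀ᵐ x : ℝ, x ≠ u := by
      simp [ae_iff]
    have h2 : ∀ᵐ x : ℝ, x ≠ v := by
      simp [ae_iff]
    filter_upwards [h1, h2] with x hx1 hx2 using ⟨hx1, hx2⟩
  have hb : ∀ᵐ x : ℝ, x ∈ uIoc u v → ‖deriv Φ x‖ ≤ ‖ω‖ * K ^ 2 * (v - u) := by
    filter_upwards [h.deriv_eq, hne] with x hx hxne hxI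
    rw [uIoc_of_le huv] at hxI
    have hx01 : x ∈ Icc (0:ℝ) 1 := hsub ⟨hxI.1.le, hxI.2⟩
    obtain ⟨hγ, hz⟩ := hx hx01
    have hxv : x < v := lt_of_le_of_ne hxI.2 hxne.2
    have hnh : Icc (0:ℝ) 1 ∈ 𝓝 x :=
      Icc_mem_nhds (hu.trans_lt hxI.1) (hxv.trans_le hv)
    have hd : HasDerivAt Φ (ω (γ x) (deriv γ x) - ω (γ u) (deriv γ x)) x :=
      hz.sub ((ω (γ u)).hasFDerivAt.comp_hasDerivAt x hγ.hasDerivAt)
    rw [hd.deriv]
    have e : ω (γ x) (deriv γ x) - ω (γ u) (deriv γ x) = ω (γ x - γ u) (deriv γ x) := by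
      simp
    rw [e]
    have h1 : ‖deriv γ x‖ ≤ K := norm_deriv_le_of_lipschitzOn hnh hK
    have h2 : ‖γ x - γ u‖ ≤ K * (x - u) := by
      have := hK.dist_le_mul x hx01 u (hsub ⟨le_rfl, huv⟩)
      rwa [dist_eq_norm, Real.dist_eq, abs_of_nonneg (by linarith [hxI.1])] at this
    calc ‖ω (γ x - γ u) (deriv γ x)‖ ≤ ‖ω‖ * ‖γ x - γ u‖ * ‖deriv γ x‖ := ω.le_opNorm₂ _ _
      _ ≤ ‖ω‖ * (K * (v - u)) * K := by
          have : K * (x - u) ≤ (K:ℝ) * (v - u) := by
            apply mul_le_mul_of_nonneg_left _ K.2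
            linarith
          gcongr
          exact h2.trans this
      _ = _ := by ring
  have := intervalIntegral.norm_integral_le_of_norm_le_const_ae hb
  refine this.trans (le_of_eq ?_)
  rw [abs_of_nonneg (by linarith)]
  ring

theorem var_ne_top {γ : ℝ → X} {K : ℝ≥0} (hK : LipschitzOnWith K γ (Icc 0 1)) :
    eVariationOn γ (Icc 0 1) ≠ ⊤ := by
  have h1 : eVariationOn (fun x : ℝ => x) (Icc 0 1) ≠ ⊤ := by
    have h := (monotone_id.monotoneOn (Icc (0:ℝ) 1)).eVariationOn_eq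
      (a := 0) (b := 1) (by simp) (by simp)
    rw [inter_self] at h
    exact ne_top_of_le_ne_top ENNReal.ofReal_ne_top h.le
  have h2 := LipschitzOnWith.comp_eVariationOn_le hK (g := fun x : ℝ => x) (s := Icc 0 1)
    (mapsTo_id _)
  exact ne_top_of_le_ne_top (by finiteness) h2

/-- lower bound for the length of horizontal curves -/
theorem lower_bound {ω : X →L[ℝ] X →L[ℝ] ℝ} (hω : ∀ x, ω x x = 0) {γ : ℝ → X} {z : ℝ → ℝ}
    (h : IsHorizontal ω γ z) :
    ‖γ 1 - γ 0‖ ≤ (eVariationOn γ (Icc 0 1)).toReal ∧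
    |z 1 - z 0 - ω (γ 0) (γ 1)| ≤ ‖ω‖ * (eVariationOn γ (Icc 0 1)).toReal ^ 2 := by
  obtain ⟨K, hK⟩ := h.lip_curve
  have hfin := var_ne_top hK
  set ℓ := (eVariationOn γ (Icc 0 1)).toReal with hℓ
  have hdist : ∀ s ∈ Icc (0:ℝ) 1, ∀ t ∈ Icc (0:ℝ) 1, ‖γ s - γ t‖ ≤ ℓ := by
    intro s hs t ht
    have := eVariationOn.edist_le γ hs ht
    rw [edist_dist, dist_eq_norm] at this
    rw [hℓ]
    exact (ENNReal.ofReal_le_iff_le_toReal hfin).1 this
  have h01 : (0:ℝ) ∈ Icc (0:ℝ) 1 := by simp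
  have h11 : (1:ℝ) ∈ Icc (0:ℝ) 1 := by simp
  refine ⟨hdist 1 h11 0 h01, ?_⟩
  have hℓ0 : 0 ≤ ℓ := ENNReal.toReal_nonneg
  have key : ∀ n : ℕ, |z 1 - z 0 - ω (γ 0) (γ 1)|
      ≤ ‖ω‖ * ℓ ^ 2 + ‖ω‖ * K ^ 2 * (1 / ((n:ℝ) + 1)) := by
    intro n
    set N : ℝ := (n:ℝ) + 1 with hN
    have hNpos : 0 < N := by positivity
    set u : ℕ → ℝ := fun i => (i:ℝ) / N with hu
    have hmem : ∀ i ∈ Icc 0 (n + 1), u i ∈ Icc (0:ℝ) 1 := by
      intro i hi
      constructor
      · positivity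
      · rw [hu]
        simp only
        rw [div_le_one hNpos, hN]
        exact_mod_cast hi.2
    have hmono : Monotone u := by
      intro i j hij
      simp only [hu]
      gcongr
    have hsum : ∑ i ∈ Finset.range (n + 1), ‖γ (u (i + 1)) - γ (u i)‖ ≤ ℓ := by
      have h1 := eVariationOn.sum_le_of_monotoneOn_Icc (f := γ) (s := Icc 0 1) (m := 0)
        (n := n + 1) (u := u) (hmono.monotoneOn _) hmem
      rw [hℓ]
      have h2 : ENNReal.ofReal (∑ i ∈ Finset.range (n + 1), ‖γ (u (i + 1)) - γ (u i)‖)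
          ≤ eVariationOn γ (Icc 0 1) := by
        rw [ENNReal.ofReal_sum_of_nonneg (fun i _ => norm_nonneg _)]
        refine le_trans (le_of_eq ?_) h1
        rw [← Finset.range_eq_Ico]
        refine Finset.sum_congr rfl (fun i _ => ?_)
        rw [edist_dist, dist_eq_norm]
      exact (ENNReal.ofReal_le_iff_le_toReal hfin).1 h2
    have htel : z 1 - z 0 - ω (γ 0) (γ 1)
        = ∑ i ∈ Finset.range (n + 1), ((z (u (i + 1)) - z (u i)
          - ω (γ (u i)) (γ (u (i + 1)) - γ (u i)))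
          + ω (γ (u i) - γ 0) (γ (u (i + 1)) - γ (u i))) := by
      have e1 : ∀ i, (z (u (i + 1)) - z (u i) - ω (γ (u i)) (γ (u (i + 1)) - γ (u i)))
          + ω (γ (u i) - γ 0) (γ (u (i + 1)) - γ (u i))
          = (z (u (i + 1)) - ω (γ 0) (γ (u (i + 1)))) - (z (u i) - ω (γ 0) (γ (u i))) := by
        intro i
        simp only [map_sub, sub_apply]
        ring
      simp_rw [e1]
      rw [Finset.sum_range_sub (fun i => z (u i) - ω (γ 0) (γ (u i)))]
      have e2 : u (n + 1) = 1 := by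
        simp only [hu, hN]
        push_cast
        field_simp
      have e3 : u 0 = 0 := by simp [hu]
      rw [e2, e3, hω (γ 0)]
      ring
    rw [htel]
    refine (Finset.abs_sum_le_sum_abs _ _).trans ?_
    have hterm : ∀ i ∈ Finset.range (n + 1), |(z (u (i + 1)) - z (u i)
          - ω (γ (u i)) (γ (u (i + 1)) - γ (u i)))
          + ω (γ (u i) - γ 0) (γ (u (i + 1)) - γ (u i))|
        ≤ ‖ω‖ * K ^ 2 * (1 / N) ^ 2 + ‖ω‖ * ℓ * ‖γ (u (i + 1)) - γ (u i)‖ := by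
      intro i hi
      rw [Finset.mem_range] at hi
      have hi1 := hmem i ⟨by omega, by omega⟩
      have hi2 := hmem (i + 1) ⟨by omega, by omega⟩
      refine (abs_add_le _ _).trans (add_le_add ?_ ?_)
      · have := local_est h hK hi1.1 (hmono (Nat.le_succ i)) hi2.2
        refine this.trans (le_of_eq ?_)
        congr 2
        simp only [hu]
        push_cast
        field_simp
        ring
      · rw [← Real.norm_eq_abs]
        refine (ω.le_opNorm₂ _ _).trans ?_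
        gcongr
        exact hdist _ hi1 _ h01
    refine (Finset.sum_le_sum hterm).trans ?_
    rw [Finset.sum_add_distrib, Finset.sum_const, Finset.card_range, ← Finset.mul_sum,
      nsmul_eq_mul]
    have e4 : ((n + 1 : ℕ) : ℝ) * (‖ω‖ * K ^ 2 * (1 / N) ^ 2) = ‖ω‖ * K ^ 2 * (1 / N) := by
      push_cast
      rw [← hN]
      field_simp
    rw [e4]
    have h5 : ‖ω‖ * ℓ * ∑ i ∈ Finset.range (n + 1), ‖γ (u (i + 1)) - γ (u i)‖ ≤ ‖ω‖ * ℓ ^ 2 := by
      calc ‖ω‖ * ℓ * ∑ i ∈ Finset.range (n + 1), ‖γ (u (i + 1)) - γ (u i)‖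
          ≤ ‖ω‖ * ℓ * ℓ := by gcongr
        _ = _ := by ring
    linarith
  have hlim : Tendsto (fun n : ℕ => ‖ω‖ * ℓ ^ 2 + ‖ω‖ * K ^ 2 * (1 / ((n:ℝ) + 1))) atTop
      (𝓝 (‖ω‖ * ℓ ^ 2 + ‖ω‖ * K ^ 2 * 0)) :=
    tendsto_const_nhds.add (tendsto_const_nhds.mul tendsto_one_div_add_atTop_nhds_zero_nat)
  rw [mul_zero, add_zero] at hlim
  exact ge_of_tendsto' hlim key

/-- `x` and `y` are joined by a horizontal curve of length at most `ℓ` -/
def Joined (ω : X →L[ℝ] X →L[ℝ] ℝ) (x y : X × ℝ) (ℓ : ℝ≥0) : Prop :=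
  ∃ (γ : ℝ → X) (z : ℝ → ℝ), IsHorizontal ω γ z ∧ (γ 0, z 0) = x ∧ (γ 1, z 1) = y ∧
    eVariationOn γ (Icc 0 1) ≤ ℓ

theorem Joined.dcc_le {ω : X →L[ℝ] X →L[ℝ] ℝ} {x y : X × ℝ} {ℓ : ℝ≥0} (h : Joined ω x y ℓ) :
    dcc ω x y ≤ ℓ := by
  obtain ⟨γ, z, h1, h2, h3, h4⟩ := h
  exact (iInf₂_le_of_le γ z (iInf₂_le_of_le h1 h2 (iInf_le_of_le h3 le_rfl))).trans h4

/-- segments -/
theorem joined_segment (ω : X →L[ℝ] X →L[ℝ] ℝ) (hω : ∀ x, ω x x = 0) (x : X × ℝ) (q : X) :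
    Joined ω x (x.1 + q, x.2 + ω x.1 q) ‖q‖₊ := by
  refine ⟨fun t => x.1 + t • q, fun t => x.2 + t * ω x.1 q, ?_, by simp, by simp, ?_⟩
  · have h1 : ∀ t : ℝ, HasDerivAt (fun t : ℝ => x.1 + t • q) q t := by
      intro t
      simpa using ((hasDerivAt_id t).smul_const q).const_add x.1
    have h2 : ∀ t : ℝ, HasDerivAt (fun t : ℝ => x.2 + t * ω x.1 q) (ω x.1 q) t := by
      intro t
      simpa using ((hasDerivAt_id t).mul_const (ω x.1 q)).const_add x.2
    refine ⟨⟨‖q‖₊, ?_⟩, ⟨‖ω x.1 q‖₊, ?_⟩, Eventually.of_forall (fun t _ => ?_)⟩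
    · apply LipschitzOnWith.of_dist_le_mul
      intro s _ t _
      rw [dist_eq_norm, add_sub_add_left_eq_sub, ← sub_smul, norm_smul, Real.dist_eq,
        Real.norm_eq_abs, mul_comm]
      rfl
    · apply LipschitzOnWith.of_dist_le_mul
      intro s _ t _
      rw [Real.dist_eq, add_sub_add_left_eq_sub, ← sub_mul, abs_mul, Real.dist_eq, mul_comm]
      rfl
    · refine ⟨(h1 t).differentiableAt, ?_⟩
      rw [(h1 t).deriv]
      have e : ω (x.1 + t • q) q = ω x.1 q := by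
        simp [hω]
      rw [e]
      exact h2 t
  · have h1 : eVariationOn (fun x : ℝ => x) (Icc 0 1) ≤ 1 := by
      have h := (monotone_id.monotoneOn (Icc (0:ℝ) 1)).eVariationOn_eq
        (a := 0) (b := 1) (by simp) (by simp)
      rw [inter_self] at h
      refine h.le.trans ?_
      simp
    have h2 : LipschitzWith ‖q‖₊ (fun t : ℝ => x.1 + t • q) := by
      apply LipschitzWith.of_dist_le_mul
      intro s t
      rw [dist_eq_norm, add_sub_add_left_eq_sub, ← sub_smul, norm_smul, Real.dist_eq,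
        Real.norm_eq_abs, mul_comm]
      rfl
    have h3 := LipschitzOnWith.comp_eVariationOn_le (h2.lipschitzOnWith (s := Icc 0 1))
      (g := fun x : ℝ => x) (s := Icc 0 1) (mapsTo_id _)
    refine h3.trans ?_
    calc (‖q‖₊ : ℝ≥0∞) * eVariationOn (fun x : ℝ => x) (Icc 0 1) ≤ ‖q‖₊ * 1 := by gcongr
      _ = _ := mul_one _

/-- gluing of Lipschitz maps -/
theorem glue_lip {E : Type*} [PseudoMetricSpace E] {f : ℝ → E} {K : ℝ≥0} {a b c : ℝ}
    (h1 : LipschitzOnWith K f (Icc a b)) (h2 : LipschitzOnWith K f (Icc b c)) :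
    LipschitzOnWith K f (Icc a c) := by
  have key : ∀ s ∈ Icc a c, ∀ t ∈ Icc a c, s ≤ t → dist (f s) (f t) ≤ K * dist s t := by
    intro s hs t ht hst
    rcases le_total t b with htb | htb
    · exact h1.dist_le_mul s ⟨hs.1, hst.trans htb⟩ t ⟨ht.1, htb⟩
    · rcases le_total b s with hbs | hbs
      · exact h2.dist_le_mul s ⟨hbs, hs.2⟩ t ⟨htb, ht.2⟩
      · have e1 := h1.dist_le_mul s ⟨hs.1, hbs⟩ b ⟨hs.1.trans hbs, le_rfl⟩
        have e2 := h2.dist_le_mul b ⟨le_rfl, htb.trans ht.2⟩ t ⟨htb, ht.2⟩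
        refine (dist_triangle _ (f b) _).trans ((add_le_add e1 e2).trans (le_of_eq ?_))
        rw [← mul_add]
        congr 1
        rw [Real.dist_eq, Real.dist_eq, Real.dist_eq, abs_of_nonpos (by linarith),
          abs_of_nonpos (by linarith), abs_of_nonpos (by linarith)]
        ring
  apply LipschitzOnWith.of_dist_le_mul
  intro s hs t ht
  rcases le_total s t with hst | hst
  · exact key s hs t ht hst
  · rw [dist_comm (f s), dist_comm s]
    exact key t ht s hs hst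

/-- concatenation -/
theorem Joined.trans {ω : X →L[ℝ] X →L[ℝ] ℝ} {x y w : X × ℝ} {ℓ₁ ℓ₂ : ℝ≥0}
    (h1 : Joined ω x y ℓ₁) (h2 : Joined ω y w ℓ₂) : Joined ω x w (ℓ₁ + ℓ₂) := by
  obtain ⟨γ₁, z₁, hh1, h10, h11, hv1⟩ := h1
  obtain ⟨γ₂, z₂, hh2, h20, h21, hv2⟩ := h2
  have hγ : γ₁ 1 = γ₂ 0 := by
    have := h11.trans h20.symm
    exact congrArg Prod.fst this
  have hz : z₁ 1 = z₂ 0 := by
    have := h11.trans h20.symm
    exact congrArg Prod.snd this
  set γ : ℝ → X := fun t => if t ≤ 1/2 then γ₁ (2 * t) else γ₂ (2 * t - 1) with hγdef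
  set z : ℝ → ℝ := fun t => if t ≤ 1/2 then z₁ (2 * t) else z₂ (2 * t - 1) with hzdef
  have g1 : EqOn γ (γ₁ ∘ fun t => 2 * t) (Icc 0 (1/2)) := by
    intro t ht
    simp only [hγdef, Function.comp]
    rw [if_pos ht.2]
  have g2 : EqOn γ (γ₂ ∘ fun t => 2 * t - 1) (Icc (1/2) 1) := by
    intro t ht
    simp only [hγdef, Function.comp]
    rcases eq_or_lt_of_le ht.1 with h | h
    · rw [← h, if_pos le_rfl]
      norm_num
      exact hγ
    · rw [if_neg (not_le.2 h)]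
  have k1 : EqOn z (z₁ ∘ fun t => 2 * t) (Icc 0 (1/2)) := by
    intro t ht
    simp only [hzdef, Function.comp]
    rw [if_pos ht.2]
  have k2 : EqOn z (z₂ ∘ fun t => 2 * t - 1) (Icc (1/2) 1) := by
    intro t ht
    simp only [hzdef, Function.comp]
    rcases eq_or_lt_of_le ht.1 with h | h
    · rw [← h, if_pos le_rfl]
      norm_num
      exact hz
    · rw [if_neg (not_le.2 h)]
  have m1 : MapsTo (fun t : ℝ => 2 * t) (Icc 0 (1/2)) (Icc 0 1) := by
    intro t ht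
    constructor
    · simp only; linarith [ht.1]
    · simp only; linarith [ht.2]
  have m2 : MapsTo (fun t : ℝ => 2 * t - 1) (Icc (1/2) 1) (Icc 0 1) := by
    intro t ht
    constructor
    · simp only; linarith [ht.1]
    · simp only; linarith [ht.2]
  have l1 : LipschitzWith 2 (fun t : ℝ => 2 * t) := by
    apply LipschitzWith.of_dist_le_mul
    intro s t
    rw [Real.dist_eq, ← mul_sub, abs_mul, Real.dist_eq]
    norm_num
  have l2 : LipschitzWith 2 (fun t : ℝ => 2 * t - 1) := by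
    apply LipschitzWith.of_dist_le_mul
    intro s t
    rw [Real.dist_eq, sub_sub_sub_cancel_right, ← mul_sub, abs_mul, Real.dist_eq]
    norm_num
  refine ⟨γ, z, ⟨?_, ?_, ?_⟩, ?_, ?_, ?_⟩
  · obtain ⟨K1, hK1⟩ := hh1.lip_curve
    obtain ⟨K2, hK2⟩ := hh2.lip_curve
    refine ⟨max K1 K2 * 2, glue_lip (b := 1/2) ?_ ?_⟩
    · have H := (hK1.weaken (le_max_left K1 K2)).comp l1.lipschitzOnWith m1
      intro s hs t ht
      rw [g1 hs, g1 ht]
      exact H hs ht
    · have H := (hK2.weaken (le_max_right K1 K2)).comp l2.lipschitzOnWith m2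
      intro s hs t ht
      rw [g2 hs, g2 ht]
      exact H hs ht
  · obtain ⟨K1, hK1⟩ := hh1.lip_height
    obtain ⟨K2, hK2⟩ := hh2.lip_height
    refine ⟨max K1 K2 * 2, glue_lip (b := 1/2) ?_ ?_⟩
    · have H := (hK1.weaken (le_max_left K1 K2)).comp l1.lipschitzOnWith m1
      intro s hs t ht
      rw [k1 hs, k1 ht]
      exact H hs ht
    · have H := (hK2.weaken (le_max_right K1 K2)).comp l2.lipschitzOnWith m2
      intro s hs t ht
      rw [k2 hs, k2 ht]
      exact H hs ht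
  · have aux : ∀ P : ℝ → Prop, (∀ᵐ t, P t) → ∀ᵐ t : ℝ, P (2 * t) := by
      intro P hP
      rw [ae_iff] at hP ⊢
      have h := Real.volume_preimage_mul_left (a := 2) (by norm_num) {t | ¬ P t}
      rw [hP, mul_zero] at h
      exact h
    have aux2 : ∀ P : ℝ → Prop, (∀ᵐ t, P t) → ∀ᵐ t : ℝ, P (t - 1) := by
      intro P hP
      exact (measurePreserving_sub_right volume (1:ℝ)).quasiMeasurePreserving.ae hP
    have a1 := aux _ hh1.deriv_eq
    have a2 := aux _ (aux2 _ hh2.deriv_eq)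
    have hne : ∀ᵐ x : ℝ, x ≠ 1/2 := by simp [ae_iff]
    filter_upwards [a1, a2, hne] with t ht1 ht2 htne htI
    rcases lt_or_gt_of_ne htne with hlt | hgt
    · obtain ⟨hd, hz'⟩ := ht1 ⟨by linarith [htI.1], by linarith⟩
      have hev : ∀ᶠ s in 𝓝 t, s < 1/2 := gt_mem_nhds hlt
      have hγe : γ =ᶠ[𝓝 t] (fun s => γ₁ (2 * s)) := by
        filter_upwards [hev] with s hs
        simp only [hγdef]
        rw [if_pos hs.le]
      have hze : z =ᶠ[𝓝 t] (fun s => z₁ (2 * s)) := by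
        filter_upwards [hev] with s hs
        simp only [hzdef]
        rw [if_pos hs.le]
      have h2t : HasDerivAt (fun s : ℝ => 2 * s) 2 t := by
        simpa using (hasDerivAt_id t).const_mul (2:ℝ)
      have hγ' : HasDerivAt γ ((2:ℝ) • deriv γ₁ (2 * t)) t :=
        (HasDerivAt.scomp t hd.hasDerivAt h2t).congr_of_eventuallyEq hγe
      refine ⟨hγ'.differentiableAt, ?_⟩
      rw [hγ'.deriv, hγe.self_of_nhds]
      have hz'' : HasDerivAt z ((ω (γ₁ (2 * t)) (deriv γ₁ (2 * t))) * 2) t :=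
        (HasDerivAt.comp t hz' h2t).congr_of_eventuallyEq hze
      convert hz'' using 1
      rw [map_smul, smul_eq_mul, mul_comm]
    · obtain ⟨hd, hz'⟩ := ht2 ⟨by linarith, by linarith [htI.2]⟩
      have hev : ∀ᶠ s in 𝓝 t, 1/2 < s := lt_mem_nhds hgt
      have hγe : γ =ᶠ[𝓝 t] (fun s => γ₂ (2 * s - 1)) := by
        filter_upwards [hev] with s hs
        simp only [hγdef]
        rw [if_neg (not_le.2 hs)]
      have hze : z =ᶠ[𝓝 t] (fun s => z₂ (2 * s - 1)) := by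
        filter_upwards [hev] with s hs
        simp only [hzdef]
        rw [if_neg (not_le.2 hs)]
      have h2t : HasDerivAt (fun s : ℝ => 2 * s - 1) 2 t := by
        simpa using ((hasDerivAt_id t).const_mul (2:ℝ)).sub_const 1
      have hγ' : HasDerivAt γ ((2:ℝ) • deriv γ₂ (2 * t - 1)) t :=
        (HasDerivAt.scomp t hd.hasDerivAt h2t).congr_of_eventuallyEq hγe
      refine ⟨hγ'.differentiableAt, ?_⟩
      rw [hγ'.deriv, hγe.self_of_nhds]
      have hz'' : HasDerivAt z ((ω (γ₂ (2 * t - 1)) (deriv γ₂ (2 * t - 1))) * 2) t :=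
        (HasDerivAt.comp t hz' h2t).congr_of_eventuallyEq hze
      convert hz'' using 1
      rw [map_smul, smul_eq_mul, mul_comm]
  · simp only [hγdef, hzdef]
    rw [if_pos (by norm_num), if_pos (by norm_num), mul_zero]
    exact h10
  · simp only [hγdef, hzdef]
    rw [if_neg (by norm_num), if_neg (by norm_num)]
    norm_num
    exact h21
  · have := eVariationOn.Icc_add_Icc γ (s := Icc 0 1) (a := 0) (b := 1/2) (c := 1)
      (by norm_num) (by norm_num) ⟨by norm_num, by norm_num⟩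
    rw [inter_self] at this
    rw [← this]
    have i1 : Icc (0:ℝ) 1 ∩ Icc 0 (1/2) = Icc 0 (1/2) :=
      inter_eq_right.2 (Icc_subset_Icc le_rfl (by norm_num))
    have i2 : Icc (0:ℝ) 1 ∩ Icc (1/2) 1 = Icc (1/2) 1 :=
      inter_eq_right.2 (Icc_subset_Icc (by norm_num) le_rfl)
    rw [i1, i2, ENNReal.coe_add]
    apply add_le_add
    · rw [eVariationOn.congr g1]
      refine (eVariationOn.comp_le_of_monotoneOn γ₁ _ ?_ m1).trans hv1
      intro s _ t _ hst
      simp only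
      linarith
    · rw [eVariationOn.congr g2]
      refine (eVariationOn.comp_le_of_monotoneOn γ₂ _ ?_ m2).trans hv2
      intro s _ t _ hst
      simp only
      linarith

end Pool.Agent.V1146.Umb
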