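import Mathlib

namespace Pool.Agent.V1146.Umb

open Set Filter Topology MeasureTheory
open scoped ENNReal NNReal

/-- The modulus `β̄_X(t) = 1 - sup { inf_n ‖(x + x_n)/2‖ : x ∈ B_X, (x_n) ⊂ B_X,
sep((x_n)) ≥ t }`. -/
noncomputable def betaBar (X : Type*) [NormedAddCommGroup X] [NormedSpace ℝ X] (t : ℝ) : ℝ :=
  1 - sSup {r : ℝ | ∃ (x : X) (xs : ℕ → X), ‖x‖ ≤ 1 ∧ (∀ n, ‖xs n‖ ≤ 1) ∧
    (∀ m n, m ≠ n → t ≤ ‖xs m - xs n‖) ∧ r = ⨅ n, ‖(1 / 2 : ℝ) • (x + xs n)‖}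

/-- Property (β_p): the modulus is at least `c t^p` for some `c > 0` and all `t ∈ (0, 2]`. -/
def PropertyBeta (p : ℝ) (X : Type*) [NormedAddCommGroup X] [NormedSpace ℝ X] : Prop :=
  ∃ c : ℝ, 0 < c ∧ ∀ t : ℝ, 0 < t → t ≤ 2 → c * t ^ p ≤ betaBar X t

/-- A pair `(γ, z)` is a horizontal curve for `ω`: both maps are Lipschitz on `[0, 1]`, and for
almost every `t ∈ [0, 1]` the curve `γ` is differentiable at `t` and `z'(t) = ω(γ(t), γ'(t))`. -/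
structure IsHorizontal {X : Type*} [NormedAddCommGroup X] [NormedSpace ℝ X]
    (ω : X →L[ℝ] X →L[ℝ] ℝ) (γ : ℝ → X) (z : ℝ → ℝ) : Prop where
  lip_curve : ∃ K : ℝ≥0, LipschitzOnWith K γ (Icc 0 1)
  lip_height : ∃ K : ℝ≥0, LipschitzOnWith K z (Icc 0 1)
  deriv_eq : ∀ᵐ t : ℝ, t ∈ Icc (0 : ℝ) 1 →
    DifferentiableAt ℝ γ t ∧ HasDerivAt z (ω (γ t) (deriv γ t)) t

/-- The Carnot-Caratheodory distance on the Heisenberg group `ℍ(ω) = X × ℝ`: the infimum of the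
lengths of `γ` over all horizontal curves `(γ, z)` from `x` to `y`. -/
noncomputable def dcc {X : Type*} [NormedAddCommGroup X] [NormedSpace ℝ X]
    (ω : X →L[ℝ] X →L[ℝ] ℝ) (x y : X × ℝ) : ℝ≥0∞ :=
  ⨅ (γ : ℝ → X) (z : ℝ → ℝ) (_ : IsHorizontal ω γ z) (_ : (γ 0, z 0) = x)
    (_ : (γ 1, z 1) = y), eVariationOn γ (Icc 0 1)

/-- `d` is an equivalent quasi-metric on `(ℍ(ω), d_cc)`. -/
def EquivalentQuasiMetric {X : Type*} [NormedAddCommGroup X] [NormedSpace ℝ X]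
    (ω : X →L[ℝ] X →L[ℝ] ℝ) (d : X × ℝ → X × ℝ → ℝ≥0) : Prop :=
  (∀ x y, d x y = d y x) ∧ ∃ c C : ℝ≥0, 0 < c ∧ c ≤ C ∧
    ∀ x y, c * dcc ω x y ≤ d x y ∧ (d x y : ℝ≥0∞) ≤ C * dcc ω x y

/-- The `p`-umbel inequality for a function `d : M × M → [0, ∞)`. -/
def UmbelInequality (p : ℝ) {M : Type*} (d : M → M → ℝ≥0) : Prop :=
  ∃ K : ℝ≥0, 0 < K ∧ ∀ (w z : M) (x : ℕ → M),
    1 / 2 ^ p * (⨅ n, (d w (x n) : ℝ≥0∞) ^ p)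
      + 1 / (K : ℝ≥0∞) ^ p * (⨅ i, liminf (fun j => (d (x i) (x j) : ℝ≥0∞) ^ p) atTop)
      ≤ 1 / 2 * (d w z : ℝ≥0∞) ^ p + 1 / 2 * (⨆ n, (d (x n) z : ℝ≥0∞) ^ p)

end Pool.Agent.V1146.Umb
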