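import Pool.Agent.V1146.Umb.Core
import Pool.Agent.V1146.Umb.Curve

namespace Pool.Agent.V1146.Umb

open Set Filter Topology MeasureTheory
open scoped ENNReal NNReal

variable {X : Type*} [NormedAddCommGroup X] [NormedSpace ℝ X]

/-- the quasi-metric `max ‖x‖ √(Λ |s|)` -/
noncomputable def hd (ω : X →L[ℝ] X →L[ℝ] ℝ) (Λ : ℝ≥0) (x y : X × ℝ) : ℝ≥0 :=
  max ‖y.1 - x.1‖₊ (NNReal.sqrt (Λ * ‖y.2 - x.2 - ω x.1 y.1‖₊))

theorem hd_coe (ω : X →L[ℝ] X →L[ℝ] ℝ) (Λ : ℝ≥0) (x y : X × ℝ) :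
    (hd ω Λ x y : ℝ) = max ‖y.1 - x.1‖ (Real.sqrt (Λ * |y.2 - x.2 - ω x.1 y.1|)) := by
  simp [hd, NNReal.coe_max]

theorem hd_symm {ω : X →L[ℝ] X →L[ℝ] ℝ} (hω : ∀ x y, ω x y = - ω y x) (Λ : ℝ≥0)
    (x y : X × ℝ) : hd ω Λ x y = hd ω Λ y x := by
  unfold hd
  have e1 : ‖y.1 - x.1‖₊ = ‖x.1 - y.1‖₊ := NNReal.eq (norm_sub_rev _ _)
  have e2 : y.2 - x.2 - ω x.1 y.1 = - (x.2 - y.2 - ω y.1 x.1) := by
    rw [hω y.1 x.1]; ring
  rw [e1, e2, nnnorm_neg]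

theorem beta_unfold {p : ℝ} (h : PropertyBeta p X) : ∃ c, 0 < c ∧ BetaIneq p c X := by
  obtain ⟨c, hc, hcc⟩ := h
  refine ⟨c, hc, ?_⟩
  intro t ht0 ht2 x hx xs hxs hsep
  have h1 := hcc t ht0 ht2
  unfold betaBar at h1
  have hb : BddAbove {r : ℝ | ∃ (x : X) (xs : ℕ → X), ‖x‖ ≤ 1 ∧ (∀ n, ‖xs n‖ ≤ 1) ∧
      (∀ m n, m ≠ n → t ≤ ‖xs m - xs n‖) ∧ r = ⨅ n, ‖(1 / 2 : ℝ) • (x + xs n)‖} := by
    refine ⟨1, ?_⟩
    rintro r ⟨x, xs, hx, hxs, -, rfl⟩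
    refine (ciInf_le ⟨0, ?_⟩ 0).trans ?_
    · rintro _ ⟨n, rfl⟩
      exact norm_nonneg _
    · rw [norm_smul, Real.norm_of_nonneg (by norm_num)]
      have := norm_add_le x (xs 0)
      linarith [hxs 0]
  have h2 := le_csSup hb ⟨x, xs, hx, hxs, hsep, rfl⟩
  linarith

theorem hd_le_dcc {ω : X →L[ℝ] X →L[ℝ] ℝ} (hω : ∀ x y, ω x y = - ω y x) {Λ : ℝ≥0}
    (hΛ : (Λ:ℝ) * ‖ω‖ ≤ 1) (x y : X × ℝ) : (hd ω Λ x y : ℝ≥0∞) ≤ dcc ω x y := by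
  have hω0 : ∀ x, ω x x = 0 := fun x => by have := hω x x; linarith
  unfold dcc
  refine le_iInf₂ (fun γ z => le_iInf₂ (fun h hx => le_iInf (fun hy => ?_)))
  obtain ⟨K, hK⟩ := h.lip_curve
  have hfin := var_ne_top hK
  obtain ⟨h1, h2⟩ := lower_bound hω0 h
  subst hx
  subst hy
  rw [← ENNReal.ofReal_coe_nnreal, hd_coe]
  rw [ENNReal.ofReal_le_iff_le_toReal hfin]
  refine max_le h1 ?_
  apply Real.sqrt_le_iff.2 ⟨ENNReal.toReal_nonneg, ?_⟩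
  simp only
  calc (Λ:ℝ) * |z 1 - z 0 - ω (γ 0) (γ 1)|
      ≤ Λ * (‖ω‖ * (eVariationOn γ (Icc 0 1)).toReal ^ 2) := by gcongr
    _ = (Λ * ‖ω‖) * (eVariationOn γ (Icc 0 1)).toReal ^ 2 := by ring
    _ ≤ 1 * (eVariationOn γ (Icc 0 1)).toReal ^ 2 := by gcongr
    _ = _ := one_mul _

theorem Joined.mono {ω : X →L[ℝ] X →L[ℝ] ℝ} {x y : X × ℝ} {ℓ ℓ' : ℝ≥0} (h : Joined ω x y ℓ)
    (hl : ℓ ≤ ℓ') : Joined ω x y ℓ' := by
  obtain ⟨γ, z, h1, h2, h3, h4⟩ := h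
  exact ⟨γ, z, h1, h2, h3, h4.trans (by exact_mod_cast hl)⟩

theorem exists_joined {ω : X →L[ℝ] X →L[ℝ] ℝ} (hω : ∀ x y, ω x y = - ω y x) (hne : ω ≠ 0)
    {Λ : ℝ≥0} (hΛ : 0 < Λ) : ∃ C : ℝ≥0, 1 ≤ C ∧ ∀ x y, Joined ω x y (C * hd ω Λ x y) := by
  have hω0 : ∀ x, ω x x = 0 := fun x => by have := hω x x; linarith
  obtain ⟨u, v, huv⟩ : ∃ u v, ω u v = 1 := by
    obtain ⟨u, hu⟩ : ∃ u, ω u ≠ 0 := by
      by_contra hcon
      push Not at hcon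
      exact hne (ContinuousLinearMap.ext hcon)
    obtain ⟨v, hv⟩ : ∃ v, ω u v ≠ 0 := by
      by_contra hcon
      push Not at hcon
      exact hu (ContinuousLinearMap.ext hcon)
    refine ⟨u, (ω u v)⁻¹ • v, ?_⟩
    rw [map_smul, smul_eq_mul, inv_mul_cancel₀ hv]
  refine ⟨1 + 2 * (‖u‖₊ + ‖v‖₊) / NNReal.sqrt Λ, by simp, ?_⟩
  intro x y
  set τ : ℝ := y.2 - x.2 - ω x.1 y.1 with hτ
  set ρ : ℝ := Real.sqrt (|τ| / 2) with hρ
  obtain ⟨σ, hσ, hσ1⟩ : ∃ σ : ℝ, σ * |τ| = τ ∧ |σ| = 1 := by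
    rcases le_total 0 τ with h | h
    · exact ⟨1, by rw [one_mul, abs_of_nonneg h], by simp⟩
    · exact ⟨-1, by rw [abs_of_nonpos h]; ring, by simp⟩
  set q1 : X := ρ • u with hq1
  set q2 : X := (σ * ρ) • v with hq2
  have hρ2 : ρ * ρ = |τ| / 2 := Real.mul_self_sqrt (by positivity)
  have hq12 : ω q1 q2 = τ / 2 := by
    rw [hq1, hq2]
    simp only [map_smul, smul_apply, smul_eq_mul, huv, mul_one]
    calc _ = σ * (ρ * ρ) := by ring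
      _ = σ * |τ| / 2 := by rw [hρ2]; ring
      _ = τ / 2 := by rw [hσ]
  have hq21 : ω q2 q1 = - (τ / 2) := by rw [hω, hq12]
  have j1 := joined_segment ω hω0 x q1
  have j2 := joined_segment ω hω0 (x.1 + q1, x.2 + ω x.1 q1) q2
  have j3 := joined_segment ω hω0
    ((x.1 + q1) + q2, (x.2 + ω x.1 q1) + ω (x.1 + q1) q2) (-q1)
  have j4 := joined_segment ω hω0 (((x.1 + q1) + q2) + -q1,
    ((x.2 + ω x.1 q1) + ω (x.1 + q1) q2) + ω ((x.1 + q1) + q2) (-q1)) (-q2)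
  have j5 := joined_segment ω hω0 ((((x.1 + q1) + q2) + -q1) + -q2,
    (((x.2 + ω x.1 q1) + ω (x.1 + q1) q2) + ω ((x.1 + q1) + q2) (-q1))
      + ω (((x.1 + q1) + q2) + -q1) (-q2)) (y.1 - x.1)
  have j := (((j1.trans j2).trans j3).trans j4).trans j5
  have hend : ((((((x.1 + q1) + q2) + -q1) + -q2) + (y.1 - x.1),
    ((((x.2 + ω x.1 q1) + ω (x.1 + q1) q2) + ω ((x.1 + q1) + q2) (-q1))
      + ω (((x.1 + q1) + q2) + -q1) (-q2)) + ω ((((x.1 + q1) + q2) + -q1) + -q2) (y.1 - x.1))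
      : X × ℝ) = y := by
    apply Prod.ext
    · simp only
      abel
    · simp only [map_add, map_neg, map_sub, add_apply, neg_apply, hω0, hq12, hq21]
      rw [hτ]
      ring
  rw [hend] at j
  refine j.mono ?_
  have hqn : ‖q1‖₊ ≤ ‖u‖₊ * (hd ω Λ x y / NNReal.sqrt Λ)
      ∧ ‖q2‖₊ ≤ ‖v‖₊ * (hd ω Λ x y / NNReal.sqrt Λ) := by
    have hρle : ρ ≤ hd ω Λ x y / Real.sqrt Λ := by
      rw [le_div_iff₀ (Real.sqrt_pos.2 (by exact_mod_cast hΛ)), hρ, ← Real.sqrt_mul (by positivity),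
        hd_coe]
      refine le_trans ?_ (le_max_right _ _)
      apply Real.sqrt_le_sqrt
      rw [← hτ]
      have := abs_nonneg τ
      nlinarith [Λ.2]
    constructor
    · rw [← NNReal.coe_le_coe]
      push_cast
      rw [hq1, norm_smul, Real.norm_of_nonneg (Real.sqrt_nonneg _), mul_comm]
      gcongr
    · rw [← NNReal.coe_le_coe]
      push_cast
      rw [hq2, norm_smul, norm_mul, Real.norm_eq_abs, hσ1, one_mul,
        Real.norm_of_nonneg (Real.sqrt_nonneg _), mul_comm]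
      gcongr
  have hlast : ‖y.1 - x.1‖₊ ≤ hd ω Λ x y := le_max_left _ _
  rw [nnnorm_neg, nnnorm_neg]
  calc ‖q1‖₊ + ‖q2‖₊ + ‖q1‖₊ + ‖q2‖₊ + ‖y.1 - x.1‖₊
      ≤ ‖u‖₊ * (hd ω Λ x y / NNReal.sqrt Λ) + ‖v‖₊ * (hd ω Λ x y / NNReal.sqrt Λ)
        + ‖u‖₊ * (hd ω Λ x y / NNReal.sqrt Λ) + ‖v‖₊ * (hd ω Λ x y / NNReal.sqrt Λ)
        + hd ω Λ x y := by
        gcongr
        · exact hqn.1
        · exact hqn.2
        · exact hqn.1
        · exact hqn.2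
    _ = (1 + 2 * (‖u‖₊ + ‖v‖₊) / NNReal.sqrt Λ) * hd ω Λ x y := by ring

theorem umbel {p : ℝ} (hp : 1 < p) (hX : PropertyBeta p X) {ω : X →L[ℝ] X →L[ℝ] ℝ}
    (hω : ∀ x y, ω x y = - ω y x) {Λ : ℝ≥0} (hΛ0 : 0 < Λ) (hΛ : (Λ:ℝ) * ‖ω‖ ≤ 1) :
    UmbelInequality p (hd ω Λ) := by
  have hp0 : 0 < p := by linarith
  have hω0 : ∀ x, ω x x = 0 := fun x => by have := hω x x; linarith
  obtain ⟨c, hc, hXc⟩ := beta_unfold hX
  obtain ⟨K, hK, hcore⟩ := core hp hc hXc ω hω (show (0:ℝ) < Λ by exact_mod_cast hΛ0) hΛ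
  lift K to ℝ≥0 using hK.le
  refine ⟨K, by exact_mod_cast hK, ?_⟩
  intro w z x
  set A : ℝ≥0∞ := ⨅ n, (hd ω Λ w (x n) : ℝ≥0∞) ^ p with hA
  set T : ℝ≥0∞ := ⨅ i, liminf (fun j => (hd ω Λ (x i) (x j) : ℝ≥0∞) ^ p) atTop with hT
  set M : ℝ≥0∞ := ⨆ n, (hd ω Λ (x n) z : ℝ≥0∞) ^ p with hM
  by_cases hMtop : M = ⊤
  · rw [hMtop, ENNReal.mul_top (by norm_num), add_top]
    exact le_top
  have hAfin : A ≠ ⊤ :=
    ne_top_of_le_ne_top (ENNReal.rpow_ne_top_of_nonneg hp0.le ENNReal.coe_ne_top) (iInf_le _ 0)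
  set B : ℝ := M.toReal ^ (1 / p) with hB
  set I : ℝ := A.toReal ^ (1 / p) with hI
  have hBp : B ^ p = M.toReal := by
    rw [hB, ← Real.rpow_mul ENNReal.toReal_nonneg, one_div_mul_cancel hp0.ne', Real.rpow_one]
  have hIp : I ^ p = A.toReal := by
    rw [hI, ← Real.rpow_mul ENNReal.toReal_nonneg, one_div_mul_cancel hp0.ne', Real.rpow_one]
  have hB0 : 0 ≤ B := by positivity
  have hI0 : 0 ≤ I := by positivity
  have hroot : ∀ a : ℝ, 0 ≤ a → (a ^ p) ^ (1 / p) = a := fun a ha => by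
    rw [← Real.rpow_mul ha, mul_one_div_cancel hp0.ne', Real.rpow_one]
  have hconv : ∀ a : ℝ≥0, ((a : ℝ≥0∞) ^ p).toReal = (a : ℝ) ^ p := fun a => by
    rw [← ENNReal.toReal_rpow]; rfl
  have hBn : ∀ n, (hd ω Λ (x n) z : ℝ) ≤ B := by
    intro n
    have h1 : (hd ω Λ (x n) z : ℝ≥0∞) ^ p ≤ M := le_iSup (fun n => (hd ω Λ (x n) z : ℝ≥0∞) ^ p) n
    have h2 := ENNReal.toReal_mono hMtop h1
    rw [hconv] at h2
    rw [← hroot (hd ω Λ (x n) z : ℝ) (NNReal.coe_nonneg _)]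
    exact Real.rpow_le_rpow (by positivity) h2 (by positivity)
  have hIn : ∀ n, I ≤ (hd ω Λ w (x n) : ℝ) := by
    intro n
    have h1 : A ≤ (hd ω Λ w (x n) : ℝ≥0∞) ^ p := iInf_le (fun n => (hd ω Λ w (x n) : ℝ≥0∞) ^ p) n
    have h2 := ENNReal.toReal_mono
      (ENNReal.rpow_ne_top_of_nonneg hp0.le ENNReal.coe_ne_top) h1
    rw [hconv] at h2
    rw [← hroot (hd ω Λ w (x n) : ℝ) (NNReal.coe_nonneg _)]
    exact Real.rpow_le_rpow ENNReal.toReal_nonneg h2 (by positivity)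
  -- coordinates
  set a : X := z.1 - w.1 with ha
  set s : ℝ := z.2 - w.2 - ω w.1 z.1 with hs
  set b : ℕ → X := fun n => (x n).1 - z.1 with hb
  set t : ℕ → ℝ := fun n => (x n).2 - z.2 - ω z.1 (x n).1 with ht
  have hwz : (hd ω Λ w z : ℝ) = max ‖a‖ (Real.sqrt (Λ * |s|)) := hd_coe ω Λ w z
  have hzx : ∀ n, (hd ω Λ (x n) z : ℝ) = max ‖b n‖ (Real.sqrt (Λ * |t n|)) := by
    intro n
    rw [hd_symm hω, hd_coe]
  have hwx : ∀ n, (hd ω Λ w (x n) : ℝ)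
      = max ‖a + b n‖ (Real.sqrt (Λ * |s + t n + ω a (b n)|)) := by
    intro n
    rw [hd_coe]
    have e1 : (x n).1 - w.1 = a + b n := by simp only [ha, hb]; abel
    have e2 : (x n).2 - w.2 - ω w.1 (x n).1 = s + t n + ω a (b n) := by
      simp only [ha, hb, hs, ht, map_sub, sub_apply, hω0]
      ring
    rw [e1, e2]
  have hxx : ∀ i j, (hd ω Λ (x i) (x j) : ℝ)
      = max ‖b j - b i‖ (Real.sqrt (Λ * |t j - t i - ω (b i) (b j)|)) := by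
    intro i j
    rw [hd_coe]
    have e1 : (x j).1 - (x i).1 = b j - b i := by simp only [hb]; abel
    have e2 : (x j).2 - (x i).2 - ω (x i).1 (x j).1 = t j - t i - ω (b i) (b j) := by
      simp only [hb, ht, map_sub, sub_apply, hω0]
      rw [hω (x i).1 z.1]
      ring
    rw [e1, e2]
  have hsq : ∀ {r m : ℝ}, 0 ≤ m → Real.sqrt (Λ * |r|) ≤ m → (Λ:ℝ) * |r| ≤ m ^ 2 := by
    intro r m hm h
    exact (Real.sqrt_le_left hm).1 h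
  have main : ∀ q : ℝ≥0, (∀ i, ∀ᶠ j in atTop, (q : ℝ≥0∞) ≤ (hd ω Λ (x i) (x j) : ℝ≥0∞) ^ p) →
      1 / 2 ^ p * A + 1 / (K : ℝ≥0∞) ^ p * q
        ≤ 1 / 2 * (hd ω Λ w z : ℝ≥0∞) ^ p + 1 / 2 * M := by
    intro q hq
    have hSp : ((q:ℝ) ^ (1 / p)) ^ p = q := by
      rw [← Real.rpow_mul (NNReal.coe_nonneg q), one_div_mul_cancel hp0.ne', Real.rpow_one]
    have key := hcore a s b t (hd ω Λ w z) B I ((q:ℝ) ^ (1/p))
      (by rw [hwz]; exact le_max_left _ _)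
      (hsq (NNReal.coe_nonneg _) (by rw [hwz]; exact le_max_right _ _))
      (fun n => (le_max_left _ _).trans ((hzx n).symm.le.trans (hBn n)))
      (fun n => hsq hB0 ((le_max_right _ _).trans ((hzx n).symm.le.trans (hBn n))))
      hI0 (by positivity) (fun n => (hIn n).trans (hwx n).le)
      (fun i => by
        filter_upwards [hq i] with j hj
        rw [← hxx i j]
        have h2 := ENNReal.toReal_mono
          (ENNReal.rpow_ne_top_of_nonneg hp0.le ENNReal.coe_ne_top) hj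
        rw [hconv] at h2
        rw [← hroot (hd ω Λ (x i) (x j) : ℝ) (NNReal.coe_nonneg _)]
        exact Real.rpow_le_rpow (NNReal.coe_nonneg q) h2 (by positivity))
    rw [hSp, hIp, hBp] at key
    have h2p : (2:ℝ≥0∞) ^ p ≠ ⊤ := ENNReal.rpow_ne_top_of_nonneg hp0.le (by norm_num)
    have h2p0 : (2:ℝ≥0∞) ^ p ≠ 0 := by
      simp [ENNReal.rpow_eq_zero_iff]
    have hKp0 : (K : ℝ≥0∞) ^ p ≠ 0 := by
      have : (K : ℝ≥0∞) ≠ 0 := by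
        rw [Ne, ENNReal.coe_eq_zero]
        intro h
        rw [h] at hK
        exact lt_irrefl _ hK
      simp [ENNReal.rpow_eq_zero_iff, this]
    have hf1 : 1 / 2 ^ p * A ≠ ⊤ :=
      ENNReal.mul_ne_top (ENNReal.div_ne_top (by norm_num) h2p0) hAfin
    have hf2 : 1 / (K : ℝ≥0∞) ^ p * q ≠ ⊤ :=
      ENNReal.mul_ne_top (ENNReal.div_ne_top (by norm_num) hKp0) ENNReal.coe_ne_top
    have hf3 : 1 / 2 * (hd ω Λ w z : ℝ≥0∞) ^ p ≠ ⊤ :=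
      ENNReal.mul_ne_top (by simp) (ENNReal.rpow_ne_top_of_nonneg hp0.le ENNReal.coe_ne_top)
    have hf4 : 1 / 2 * M ≠ ⊤ := ENNReal.mul_ne_top (by simp) hMtop
    rw [← ENNReal.toReal_le_toReal (ENNReal.add_ne_top.2 ⟨hf1, hf2⟩)
      (ENNReal.add_ne_top.2 ⟨hf3, hf4⟩), ENNReal.toReal_add hf1 hf2, ENNReal.toReal_add hf3 hf4,
      ENNReal.toReal_mul, ENNReal.toReal_mul, ENNReal.toReal_mul, ENNReal.toReal_mul, hconv,
      ENNReal.toReal_div, ENNReal.toReal_div, hconv, ← ENNReal.toReal_rpow]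
    simp only [ENNReal.toReal_one, ENNReal.toReal_ofNat, ENNReal.coe_toReal, ENNReal.toReal_div]
    calc 1 / 2 ^ p * A.toReal + 1 / K ^ p * (q:ℝ) = A.toReal / 2 ^ p + q / K ^ p := by ring
      _ ≤ (hd ω Λ w z : ℝ) ^ p / 2 + M.toReal / 2 := key
      _ = _ := by ring
  set R : ℝ≥0∞ := 1 / 2 * (hd ω Λ w z : ℝ≥0∞) ^ p + 1 / 2 * M with hR
  set k : ℝ≥0∞ := (K : ℝ≥0∞) ^ p with hk
  have hk0 : k ≠ 0 := by
    have : (K : ℝ≥0∞) ≠ 0 := by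
      rw [Ne, ENNReal.coe_eq_zero]
      intro h
      rw [h] at hK
      exact lt_irrefl _ hK
    simp [hk, ENNReal.rpow_eq_zero_iff, this]
  have hktop : k ≠ ⊤ := ENNReal.rpow_ne_top_of_nonneg hp0.le ENNReal.coe_ne_top
  have h0 : 1 / 2 ^ p * A ≤ R := by
    have := main 0 (fun i => Eventually.of_forall (fun j => by simp))
    simpa using this
  have hT1 : T ≤ k * (R - 1 / 2 ^ p * A) := by
    refine le_of_forall_lt_imp_le_of_dense (fun q hq => ?_)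
    have hqtop : q ≠ ⊤ := hq.ne_top
    lift q to ℝ≥0 using hqtop
    have h1 := main q (fun i => by
      have h2 : (q:ℝ≥0∞) < liminf (fun j => (hd ω Λ (x i) (x j) : ℝ≥0∞) ^ p) atTop :=
        hq.trans_le (iInf_le _ i)
      filter_upwards [eventually_lt_of_lt_liminf h2] with j hj using hj.le)
    have h2 : 1 / k * (q:ℝ≥0∞) ≤ R - 1 / 2 ^ p * A := by
      apply ENNReal.le_sub_of_add_le_left _ h1
      exact ne_top_of_le_ne_top (by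
        refine ENNReal.add_ne_top.2 ⟨ENNReal.mul_ne_top (by simp)
          (ENNReal.rpow_ne_top_of_nonneg hp0.le ENNReal.coe_ne_top),
          ENNReal.mul_ne_top (by simp) hMtop⟩) h0
    calc (q:ℝ≥0∞) = k * (1 / k * q) := by
          rw [← mul_assoc, one_div, ENNReal.mul_inv_cancel hk0 hktop, one_mul]
      _ ≤ k * (R - 1 / 2 ^ p * A) := by gcongr
  calc 1 / 2 ^ p * A + 1 / k * T ≤ 1 / 2 ^ p * A + 1 / k * (k * (R - 1 / 2 ^ p * A)) := by gcongr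
    _ = 1 / 2 ^ p * A + (R - 1 / 2 ^ p * A) := by
        have hk1 : 1 / k * k = 1 := by
          rw [one_div]
          exact ENNReal.inv_mul_cancel hk0 hktop
        rw [← mul_assoc, hk1, one_mul]
    _ = R := add_tsub_cancel_of_le h0

theorem final {p : ℝ} (hp : 1 < p) (hX : PropertyBeta p X) (ω : X →L[ℝ] X →L[ℝ] ℝ)
    (hω : ∀ x y, ω x y = - ω y x) (hne : ω ≠ 0) :
    ∃ d : X × ℝ → X × ℝ → ℝ≥0, EquivalentQuasiMetric ω d ∧ UmbelInequality p d := by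
  set Λ : ℝ≥0 := 1 / (1 + ‖ω‖₊) with hΛ
  have hΛ0 : 0 < Λ := by rw [hΛ]; positivity
  have hΛ1 : (Λ:ℝ) * ‖ω‖ ≤ 1 := by
    rw [hΛ]
    push_cast
    rw [one_div, inv_mul_le_iff₀ (by positivity)]
    linarith
  refine ⟨hd ω Λ, ⟨fun x y => hd_symm hω Λ x y, ?_⟩, umbel hp hX hω hΛ0 hΛ1⟩
  obtain ⟨C, hC, hJ⟩ := exists_joined hω hne hΛ0
  have hC0 : C ≠ 0 := (lt_of_lt_of_le one_pos hC).ne'
  refine ⟨C⁻¹, 1, by positivity, by exact inv_le_one_of_one_le₀ hC, fun x y => ⟨?_, ?_⟩⟩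
  · have h1 := (hJ x y).dcc_le
    calc ((C⁻¹ : ℝ≥0) : ℝ≥0∞) * dcc ω x y ≤ ((C⁻¹ : ℝ≥0) : ℝ≥0∞) * ((C * hd ω Λ x y : ℝ≥0) : ℝ≥0∞) := by
          gcongr
      _ = _ := by
          rw [← ENNReal.coe_mul, ← mul_assoc, inv_mul_cancel₀ hC0, one_mul]
  · rw [ENNReal.coe_one, one_mul]
    exact hd_le_dcc hω hΛ1 x y

end Pool.Agent.V1146.Umb
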