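import Mathlib

namespace Pool.Agent.V1146.Umb

open Set Filter Topology

/-- midpoint convexity of the power function -/
theorem mid_le {p : ℝ} (hp : 1 < p) {a b : ℝ} (ha : 0 ≤ a) (hb : 0 ≤ b) :
    ((a + b) / 2) ^ p ≤ a ^ p / 2 + b ^ p / 2 := by
  have h := (convexOn_rpow hp.le).2 (x := a) (y := b) ha hb
    (show (0:ℝ) ≤ 1/2 by norm_num) (show (0:ℝ) ≤ 1/2 by norm_num) (by norm_num)
  simp only [smul_eq_mul] at h
  have e : (a + b) / 2 = 1/2 * a + 1/2 * b := by ring
  rw [e]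
  linarith

theorem mid_lt {p : ℝ} (hp : 1 < p) {a b : ℝ} (ha : 0 ≤ a) (hb : 0 ≤ b) (hab : a ≠ b) :
    ((a + b) / 2) ^ p < a ^ p / 2 + b ^ p / 2 := by
  have h := (strictConvexOn_rpow hp).2 (x := a) (y := b) ha hb hab
    (show (0:ℝ) < 1/2 by norm_num) (show (0:ℝ) < 1/2 by norm_num) (by norm_num)
  simp only [smul_eq_mul] at h
  have e : (a + b) / 2 = 1/2 * a + 1/2 * b := by ring
  rw [e]
  linarith

/-- gap in the midpoint inequality if one number is at most half of the other -/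
theorem gap_one {p : ℝ} (hp : 1 < p) : ∃ κ : ℝ, 0 < κ ∧ ∀ a b : ℝ, 0 ≤ a → 2 * a ≤ b →
    ((a + b) / 2) ^ p + κ * b ^ p ≤ a ^ p / 2 + b ^ p / 2 := by
  have hp0 : 0 < p := by linarith
  have hcont : ContinuousOn (fun r : ℝ => r ^ p / 2 + 1 / 2 - ((r + 1) / 2) ^ p) (Icc 0 (1/2)) := by
    apply Continuous.continuousOn
    have h1 : Continuous (fun r : ℝ => r ^ p) := Real.continuous_rpow_const hp0.le
    have h2 : Continuous (fun r : ℝ => ((r + 1) / 2) ^ p) :=
      (Real.continuous_rpow_const hp0.le).comp (by fun_prop)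
    fun_prop
  obtain ⟨r0, hr0, hmin⟩ := (isCompact_Icc (a := (0:ℝ)) (b := 1/2)).exists_isMinOn
    (nonempty_Icc.2 (by norm_num)) hcont
  have hpos : 0 < r0 ^ p / 2 + 1 / 2 - ((r0 + 1) / 2) ^ p := by
    have h := mid_lt hp hr0.1 (zero_le_one) (show r0 ≠ 1 by
      intro h
      have := hr0.2
      rw [h] at this
      norm_num at this)
    rw [Real.one_rpow] at h
    linarith
  refine ⟨_, hpos, ?_⟩
  intro a b ha hab
  rcases eq_or_lt_of_le (show (0:ℝ) ≤ b by linarith) with hb | hb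
  · have ha0 : a = 0 := by linarith
    rw [← hb, ha0]
    simp [Real.zero_rpow hp0.ne']
  · have hr : a / b ∈ Icc (0:ℝ) (1/2) := by
      constructor
      · positivity
      · rw [div_le_iff₀ hb]; linarith
    have h := hmin hr
    simp only [mem_ofPred_eq] at h
    have hbp : 0 < b ^ p := Real.rpow_pos_of_pos hb p
    have e1 : (a / b) ^ p * b ^ p = a ^ p := by
      rw [← Real.mul_rpow (by positivity) hb.le]
      congr 1
      field_simp
    have e2 : ((a / b + 1) / 2) ^ p * b ^ p = ((a + b) / 2) ^ p := by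
      rw [← Real.mul_rpow (by positivity) hb.le]
      congr 1
      field_simp
    have h' := mul_le_mul_of_nonneg_right h hbp.le
    have e3 : ((a / b) ^ p / 2 + 1 / 2 - ((a / b + 1) / 2) ^ p) * b ^ p
        = a ^ p / 2 + b ^ p / 2 - ((a + b) / 2) ^ p := by
      rw [← e1, ← e2]; ring
    rw [e3] at h'
    linarith

/-- gap for the vertical part -/
theorem gap_two {p : ℝ} (hp : 1 < p) : ∃ κ : ℝ, 0 < κ ∧ ∀ a b : ℝ, 0 ≤ a → 0 ≤ b →
    (Real.sqrt (a ^ 2 + a * b + b ^ 2) / 2) ^ p + κ * (a + b) ^ p ≤ a ^ p / 2 + b ^ p / 2 := by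
  have hp0 : 0 < p := by linarith
  have hcont : ContinuousOn (fun r : ℝ => r ^ p / 2 + (1 - r) ^ p / 2
      - (Real.sqrt (r ^ 2 + r * (1 - r) + (1 - r) ^ 2) / 2) ^ p) (Icc 0 1) := by
    apply Continuous.continuousOn
    have h1 : Continuous (fun r : ℝ => r ^ p) := Real.continuous_rpow_const hp0.le
    have h2 : Continuous (fun r : ℝ => (1 - r) ^ p) :=
      (Real.continuous_rpow_const hp0.le).comp (by fun_prop)
    have h3 : Continuous (fun r : ℝ =>
        (Real.sqrt (r ^ 2 + r * (1 - r) + (1 - r) ^ 2) / 2) ^ p) :=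
      (Real.continuous_rpow_const hp0.le).comp (by fun_prop)
    fun_prop
  obtain ⟨r0, hr0, hmin⟩ := (isCompact_Icc (a := (0:ℝ)) (b := 1)).exists_isMinOn
    (nonempty_Icc.2 (by norm_num)) hcont
  have hpos : 0 < r0 ^ p / 2 + (1 - r0) ^ p / 2
      - (Real.sqrt (r0 ^ 2 + r0 * (1 - r0) + (1 - r0) ^ 2) / 2) ^ p := by
    have hm := mid_le hp hr0.1 (show (0:ℝ) ≤ 1 - r0 by linarith [hr0.2])
    have e : (r0 + (1 - r0)) / 2 = 1 / 2 := by ring
    rw [e] at hm
    rcases eq_or_ne r0 (1 - r0) with heq | hne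
    · -- r0 = 1/2
      have hr : r0 = 1/2 := by linarith
      have hs : Real.sqrt (r0 ^ 2 + r0 * (1 - r0) + (1 - r0) ^ 2) < 1 := by
        rw [Real.sqrt_lt' (by norm_num)]
        rw [hr]; norm_num
      have : (Real.sqrt (r0 ^ 2 + r0 * (1 - r0) + (1 - r0) ^ 2) / 2) ^ p < (1/2) ^ p := by
        apply Real.rpow_lt_rpow (by positivity) _ hp0
        linarith
      linarith
    · have hl := mid_lt hp hr0.1 (show (0:ℝ) ≤ 1 - r0 by linarith [hr0.2]) hne
      rw [e] at hl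
      have hs : Real.sqrt (r0 ^ 2 + r0 * (1 - r0) + (1 - r0) ^ 2) ≤ 1 := by
        rw [Real.sqrt_le_left (by norm_num)]
        nlinarith [hr0.1, hr0.2, mul_nonneg hr0.1 (show (0:ℝ) ≤ 1 - r0 by linarith [hr0.2])]
      have : (Real.sqrt (r0 ^ 2 + r0 * (1 - r0) + (1 - r0) ^ 2) / 2) ^ p ≤ (1/2) ^ p := by
        apply Real.rpow_le_rpow (by positivity) _ hp0.le
        linarith
      linarith
  refine ⟨_, hpos, ?_⟩
  intro a b ha hb
  rcases eq_or_lt_of_le (show (0:ℝ) ≤ a + b by linarith) with hs | hs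
  · have ha0 : a = 0 := by linarith
    have hb0 : b = 0 := by linarith
    rw [ha0, hb0]
    simp [Real.zero_rpow hp0.ne']
  · set s := a + b with hsdef
    have hr : a / s ∈ Icc (0:ℝ) 1 := by
      constructor
      · positivity
      · rw [div_le_one hs]; linarith
    have h := hmin hr
    simp only [mem_ofPred_eq] at h
    have hsp : 0 < s ^ p := Real.rpow_pos_of_pos hs p
    have h1s : 1 - a / s = b / s := by
      field_simp
      linarith
    rw [h1s] at h
    have e1 : (a / s) ^ p * s ^ p = a ^ p := by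
      rw [← Real.mul_rpow (by positivity) hs.le]
      congr 1
      field_simp
    have e2 : (b / s) ^ p * s ^ p = b ^ p := by
      rw [← Real.mul_rpow (by positivity) hs.le]
      congr 1
      field_simp
    have e3 : (Real.sqrt ((a / s) ^ 2 + (a / s) * (b / s) + (b / s) ^ 2) / 2) ^ p * s ^ p
        = (Real.sqrt (a ^ 2 + a * b + b ^ 2) / 2) ^ p := by
      rw [← Real.mul_rpow (by positivity) hs.le]
      congr 1
      have : (a / s) ^ 2 + (a / s) * (b / s) + (b / s) ^ 2 = (a ^ 2 + a * b + b ^ 2) / s ^ 2 := by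
        field_simp
      rw [this, Real.sqrt_div (by positivity), Real.sqrt_sq hs.le]
      field_simp
    have h' := mul_le_mul_of_nonneg_right h hsp.le
    have e4 : ((a / s) ^ p / 2 + (b / s) ^ p / 2
        - (Real.sqrt ((a / s) ^ 2 + (a / s) * (b / s) + (b / s) ^ 2) / 2) ^ p) * s ^ p
        = a ^ p / 2 + b ^ p / 2 - (Real.sqrt (a ^ 2 + a * b + b ^ 2) / 2) ^ p := by
      rw [← e1, ← e2, ← e3]; ring
    rw [e4] at h'
    linarith

/-- `(A - δ)^p ≤ A^p - δ A^(p-1)` -/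
theorem sub_rpow_le {p : ℝ} (hp : 1 < p) {A δ : ℝ} (hA : 0 < A) (hδ : 0 ≤ δ) (h : δ ≤ A) :
    (A - δ) ^ p ≤ A ^ p - δ * A ^ (p - 1) := by
  have hx0 : 0 ≤ 1 - δ / A := by
    rw [sub_nonneg, div_le_one hA]; exact h
  have hx1 : 1 - δ / A ≤ 1 := by
    have : 0 ≤ δ / A := by positivity
    linarith
  have h1 : (1 - δ / A) ^ p ≤ 1 - δ / A := by
    calc (1 - δ / A) ^ p ≤ (1 - δ / A) ^ (1:ℝ) := by
          rcases eq_or_lt_of_le hx0 with h0 | h0
          · rw [← h0, Real.zero_rpow (by linarith), Real.zero_rpow one_ne_zero]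
          · exact Real.rpow_le_rpow_of_exponent_ge h0 hx1 hp.le
      _ = _ := Real.rpow_one _
  have e : A - δ = A * (1 - δ / A) := by field_simp
  rw [e, Real.mul_rpow hA.le hx0]
  have e2 : A ^ (p - 1) = A ^ p / A := by rw [Real.rpow_sub_one hA.ne']
  rw [e2]
  have hAp : 0 < A ^ p := Real.rpow_pos_of_pos hA p
  calc A ^ p * (1 - δ / A) ^ p ≤ A ^ p * (1 - δ / A) := by gcongr
    _ = _ := by field_simp

end Pool.Agent.V1146.Umb
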