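import Pool.Agent.V1146.Umb.Real

namespace Pool.Agent.V1146.Umb

open Set Filter Topology

/-- The modulus of asymptotic midpoint separation, in unfolded form: the
inequality obtained from property (β_p). -/
def BetaIneq (p c : ℝ) (X : Type*) [NormedAddCommGroup X] [NormedSpace ℝ X] : Prop :=
  ∀ t : ℝ, 0 < t → t ≤ 2 → ∀ x : X, ‖x‖ ≤ 1 → ∀ xs : ℕ → X, (∀ n, ‖xs n‖ ≤ 1) →
    (∀ m n, m ≠ n → t ≤ ‖xs m - xs n‖) → (⨅ n, ‖(1/2:ℝ) • (x + xs n)‖) ≤ 1 - c * t ^ p

variable {X : Type*} [NormedAddCommGroup X] [NormedSpace ℝ X]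

/-- linear interpolation form of the midpoint inequality -/
theorem lin_ineq {p c : ℝ} (hX : BetaIneq p c X) {a : X}
    {b : ℕ → X} {B σ J : ℝ} (hσ : 0 < σ) (hb : ∀ n, ‖b n‖ ≤ B)
    (hsep : ∀ m n, m ≠ n → σ ≤ ‖b m - b n‖) (hJ : ∀ n, J ≤ ‖a + b n‖) :
    J / 2 ≤ (‖a‖ + B) / 2 - c * min ‖a‖ B * (σ / B) ^ p := by
  have hσB : σ ≤ 2 * B := by
    have h1 := hsep 0 1 (by norm_num)
    have h2 := norm_sub_le (b 0) (b 1)
    linarith [hb 0, hb 1]
  have hB : 0 < B := by linarith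
  have ht0 : 0 < σ / B := by positivity
  have ht2 : σ / B ≤ 2 := by rw [div_le_iff₀ hB]; linarith
  have hxs : ∀ n, ‖(1 / B) • b n‖ ≤ 1 := by
    intro n
    rw [norm_smul, Real.norm_of_nonneg (by positivity), one_div, inv_mul_le_iff₀ hB, mul_one]
    exact hb n
  have hxsep : ∀ m n, m ≠ n → σ / B ≤ ‖(1 / B) • b m - (1 / B) • b n‖ := by
    intro m n hmn
    rw [← smul_sub, norm_smul, Real.norm_of_nonneg (by positivity)]
    have := hsep m n hmn
    rw [div_eq_mul_one_div, mul_comm]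
    gcongr
  rcases eq_or_lt_of_le (norm_nonneg a) with ha0 | ha0
  · rw [← ha0, min_eq_left hB.le]
    have h1 := hJ 0
    have h2 := norm_add_le a (b 0)
    have := hb 0
    simp only [mul_zero, zero_mul, sub_zero]
    linarith
  have hx : ‖(1 / ‖a‖) • a‖ ≤ 1 := by
    rw [norm_smul, Real.norm_of_nonneg (by positivity)]
    field_simp
    exact le_rfl
  have key := hX (σ / B) ht0 ht2 _ hx _ hxs hxsep
  set q := ⨅ n, ‖(1/2:ℝ) • ((1 / ‖a‖) • a + (1 / B) • b n)‖ with hq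
  rcases le_total B ‖a‖ with hab | hab
  · rw [min_eq_right hab]
    have h1 : ∀ n, (J - (‖a‖ - B)) / (2 * B) ≤ ‖(1/2:ℝ) • ((1 / ‖a‖) • a + (1 / B) • b n)‖ := by
      intro n
      have e : a + b n = ((‖a‖ - B) / ‖a‖) • a
          + (2 * B) • ((1/2:ℝ) • ((1 / ‖a‖) • a + (1 / B) • b n)) := by
        simp only [smul_add, smul_smul]
        rw [← add_assoc, ← add_smul]
        have e1 : (‖a‖ - B) / ‖a‖ + 2 * B * (1 / 2 * (1 / ‖a‖)) = 1 := by field_simp; ring
        have e2 : 2 * B * (1 / 2 * (1 / B)) = 1 := by field_simp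
        rw [e1, e2, one_smul, one_smul]
      have h2 : ‖a + b n‖ ≤ (‖a‖ - B)
          + (2 * B) * ‖(1/2:ℝ) • ((1 / ‖a‖) • a + (1 / B) • b n)‖ := by
        rw [e]
        refine (norm_add_le _ _).trans ?_
        rw [norm_smul ((‖a‖ - B) / ‖a‖) a, norm_smul (2 * B) _,
          Real.norm_of_nonneg (show (0:ℝ) ≤ (‖a‖ - B) / ‖a‖ from
            div_nonneg (by linarith) ha0.le),
          Real.norm_of_nonneg (show (0:ℝ) ≤ 2 * B by positivity)]
        have : (‖a‖ - B) / ‖a‖ * ‖a‖ = ‖a‖ - B := by field_simp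
        rw [this]
      rw [div_le_iff₀ (by positivity)]
      have := hJ n
      linarith
    have h3 : (J - (‖a‖ - B)) / (2 * B) ≤ q := le_ciInf h1
    have h4 := h3.trans key
    rw [div_le_iff₀ (by positivity)] at h4
    nlinarith
  · rw [min_eq_left hab]
    have h1 : ∀ n, (J - (B - ‖a‖)) / (2 * ‖a‖)
        ≤ ‖(1/2:ℝ) • ((1 / ‖a‖) • a + (1 / B) • b n)‖ := by
      intro n
      have e : a + b n = ((B - ‖a‖) / B) • b n
          + (2 * ‖a‖) • ((1/2:ℝ) • ((1 / ‖a‖) • a + (1 / B) • b n)) := by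
        simp only [smul_add, smul_smul]
        have e1 : 2 * ‖a‖ * (1 / 2 * (1 / ‖a‖)) = 1 := by field_simp
        have e2 : (B - ‖a‖) / B + 2 * ‖a‖ * (1 / 2 * (1 / B)) = 1 := by field_simp; ring
        rw [add_left_comm, ← add_smul, e1, e2, one_smul, one_smul]
      have h2 : ‖a + b n‖ ≤ (B - ‖a‖)
          + (2 * ‖a‖) * ‖(1/2:ℝ) • ((1 / ‖a‖) • a + (1 / B) • b n)‖ := by
        rw [e]
        refine (norm_add_le _ _).trans ?_
        rw [norm_smul ((B - ‖a‖) / B) (b n), norm_smul (2 * ‖a‖) _,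
          Real.norm_of_nonneg (show (0:ℝ) ≤ (B - ‖a‖) / B from
            div_nonneg (by linarith) hB.le),
          Real.norm_of_nonneg (show (0:ℝ) ≤ 2 * ‖a‖ by positivity)]
        have : (B - ‖a‖) / B * ‖b n‖ ≤ B - ‖a‖ := by
          rw [div_mul_eq_mul_div, div_le_iff₀ hB]
          exact mul_le_mul_of_nonneg_left (hb n) (by linarith)
        linarith
      rw [div_le_iff₀ (by positivity)]
      have := hJ n
      linarith
    have h3 : (J - (B - ‖a‖)) / (2 * ‖a‖) ≤ q := le_ciInf h1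
    have h4 := h3.trans key
    rw [div_le_iff₀ (by positivity)] at h4
    nlinarith

/-- the unrelaxed midpoint inequality -/
theorem x_umbel {p c : ℝ} (hp : 1 < p) (hc : 0 < c) (hX : BetaIneq p c X) :
    ∃ c' : ℝ, 0 < c' ∧ ∀ (a : X) (b : ℕ → X) (B σ J : ℝ), 0 < σ → (∀ n, ‖b n‖ ≤ B) →
      (∀ m n, m ≠ n → σ ≤ ‖b m - b n‖) → 0 ≤ J → (∀ n, J ≤ ‖a + b n‖) →
      (J / 2) ^ p ≤ ‖a‖ ^ p / 2 + B ^ p / 2 - c' * σ ^ p := by
  have hp0 : 0 < p := by linarith
  obtain ⟨κ, hκ, hgap⟩ := gap_one hp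
  refine ⟨min (c / 2 ^ p) (κ / 2 ^ p), lt_min (by positivity) (by positivity), ?_⟩
  intro a b B σ J hσ hb hsep hJ0 hJ
  have hσB : σ ≤ 2 * B := by
    have h1 := hsep 0 1 (by norm_num)
    have h2 := norm_sub_le (b 0) (b 1)
    linarith [hb 0, hb 1]
  have hB : 0 < B := by linarith
  have hlin := lin_ineq hX hσ hb hsep hJ
  have hσp : 0 < σ ^ p := Real.rpow_pos_of_pos hσ p
  have hBp : 0 < B ^ p := Real.rpow_pos_of_pos hB p
  have h2p : (0:ℝ) < 2 ^ p := by positivity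
  have hA : 0 < (‖a‖ + B) / 2 := by have := norm_nonneg a; linarith
  have ht : 0 < (σ / B) ^ p := by positivity
  rcases lt_or_ge (2 * ‖a‖) B with hab | hab
  · -- far apart
    have h1 : (J / 2) ^ p ≤ ((‖a‖ + B) / 2) ^ p := by
      apply Real.rpow_le_rpow (by linarith) _ hp0.le
      have : 0 ≤ c * min ‖a‖ B * (σ / B) ^ p := by
        have : 0 ≤ min ‖a‖ B := le_min (norm_nonneg a) hB.le
        positivity
      linarith
    have h2 := hgap ‖a‖ B (norm_nonneg a) hab.le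
    have h3 : min (c / 2 ^ p) (κ / 2 ^ p) * σ ^ p ≤ κ * B ^ p := by
      calc min (c / 2 ^ p) (κ / 2 ^ p) * σ ^ p ≤ κ / 2 ^ p * (2 * B) ^ p := by
            apply mul_le_mul (min_le_right _ _) _ hσp.le (by positivity)
            exact Real.rpow_le_rpow hσ.le hσB hp0.le
        _ = κ * B ^ p := by
            rw [Real.mul_rpow (by norm_num) hB.le]
            field_simp
    linarith
  · have hm : B / 2 ≤ min ‖a‖ B := le_min (by linarith) (by linarith)
    set δ := c * (B / 2) * (σ / B) ^ p with hδ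
    have hδ0 : 0 ≤ δ := by positivity
    have h1 : J / 2 ≤ (‖a‖ + B) / 2 - δ := by
      refine hlin.trans ?_
      have : δ ≤ c * min ‖a‖ B * (σ / B) ^ p := by
        rw [hδ]
        gcongr
      linarith
    have hδA : δ ≤ (‖a‖ + B) / 2 := by linarith
    have h2 : (J / 2) ^ p ≤ ((‖a‖ + B) / 2 - δ) ^ p :=
      Real.rpow_le_rpow (by linarith) h1 hp0.le
    have h3 := sub_rpow_le hp hA hδ0 hδA
    have h4 := mid_le hp (norm_nonneg a) hB.le
    have h5 : min (c / 2 ^ p) (κ / 2 ^ p) * σ ^ p ≤ δ * ((‖a‖ + B) / 2) ^ (p - 1) := by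
      calc min (c / 2 ^ p) (κ / 2 ^ p) * σ ^ p ≤ c / 2 ^ p * σ ^ p := by
            gcongr
            exact min_le_left _ _
        _ = δ * (B / 2) ^ (p - 1) := by
            rw [hδ, Real.rpow_sub_one (by positivity), Real.div_rpow hσ.le hB.le,
              Real.div_rpow hB.le (by norm_num)]
            field_simp
        _ ≤ δ * ((‖a‖ + B) / 2) ^ (p - 1) := by
            apply mul_le_mul_of_nonneg_left _ hδ0
            apply Real.rpow_le_rpow (by positivity) _ (by linarith)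
            have := norm_nonneg a
            linarith
    linarith

end Pool.Agent.V1146.Umb
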